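import Mathlib
import Pool.Agent.Helper21_R3.Kit

/-!
# ALF: two consecutive rows of a cycle
-/

set_option autoImplicit false

namespace Pool.Agent.R3.H17

open Pool.Agent.R3.Kit

theorem alf (upt : UptStmt) (dnt : DntStmt) (fdr : FdrStmt) : AlfStmt := by
  intro V _ _ σ b c d hctx P v hP hv
  have s0 := hctx.s0
  obtain ⟨v', hv'⟩ : ∃ v', v' = ph σ P v := ⟨_, rfl⟩
  rw [← hv']
  rcases eq_or_ne v' v with rfl | hne
  · exact ⟨hv, rfl⟩
  have h1 : P v' ≠ 0 := by
    intro h0
    exact hne (hP ((ph_zero s0 h0).trans hv'))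
  refine ⟨h1, ?_⟩
  have hyne : v' ≠ ph σ P v' := by
    intro h2
    exact hne (hP (h2.symm.trans hv'))
  -- the common retraction
  obtain ⟨A, hA⟩ : ∃ A : V → Fin 3, A = Function.update P v 0 := ⟨_, rfl⟩
  obtain ⟨A', hA'⟩ : ∃ A' : V → Fin 3, A' = Function.update P v' 0 := ⟨_, rfl⟩
  obtain ⟨Z, hZ⟩ : ∃ Z : V → Fin 3, Z = Function.update A v' 0 := ⟨_, rfl⟩
  have hZ' : Z = Function.update A' v 0 := by
    rw [hZ, hA, hA', Function.update_comm hne.symm]
  have hAv' : A v' = P v' := by rw [hA, Function.update_of_ne hne]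
  have hA'v : A' v = P v := by rw [hA', Function.update_of_ne hne.symm]
  have e1 : Bg σ b c v P = W b c P A + (W b c A Z + Ps σ b c Z v (ph σ P v')) := by
    unfold Bg
    rw [← hv', ← hA, Ps_pos σ b c hne.symm (by rw [hAv']; exact h1), ← hZ]
    have : ph σ A v' = ph σ P v' := by rw [hA, ph_ne hne]
    rw [this]
  have e2 : Bg σ b c v' P = W b c P A' + (W b c A' Z + Ps σ b c Z v (ph σ P v')) := by
    unfold Bg
    rw [← hA', Ps_eq_Fd, Ps_eq_Fd]
    have hnp : NP σ A' v' (ph σ P v') := by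
      rw [hA']
      exact np_of_pf hP v'
    have hph : ph σ A' v = v' := by rw [hA', ph_ne hne.symm, ← hv']
    rw [(fdr V σ b c d hctx (Bs σ b c) A' v' (ph σ P v') v hnp hyne hne.symm hph).1, ← hZ']
  have e3 : W b c P A + W b c A A' = W b c P A' := by
    rw [hA, hA']
    exact dnW0 dnt P (hctx.cen P hP) v v'
  have e4 : W b c A A' + W b c A' Z = W b c A Z := by
    refine upP upt b c (pt Z) A A' Z (P v') (P v) 0 ?_ ?_ ?_
    · rw [hZ, pt_zero, hAv']
      abel
    · rw [hZ', pt_zero, hA'v]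
      abel
    · rw [dl_zero, add_zero]
  rw [e1, e2]
  linarith

end Pool.Agent.R3.H17
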